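import Pool.Agent.Helper35.HG.StA

/-!
Project HG (MP_925021_gt), module ZBD: a bound for `AAH - Sq`.
-/

set_option autoImplicit false

namespace Pool.Agent.Helper47.HG

open Helper35.HG Helper35.PI Helper35.PI2 Helper32.CL Helper35.MS Helper35.HSF Helper35.HC
open scoped ContDiff Manifold Topology ENNReal BigOperators
open MeasureTheory Set Filter

/-- Cauchy-Schwarz for double sums -/
lemma cs2 {n : ℕ} (f g : Fin n → Fin n → ℝ) :
    (∑ i, ∑ j, f i j * g i j) ^ 2 ≤ (∑ i, ∑ j, f i j ^ 2) * (∑ i, ∑ j, g i j ^ 2) := by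
  have h := Finset.sum_mul_sq_le_sq_mul_sq (Finset.univ : Finset (Fin n × Fin n))
    (fun p => f p.1 p.2) (fun p => g p.1 p.2)
  simpa only [Fintype.sum_prod_type] using h

/-- the cubic sum -/
lemma cub {n N : ℕ} (a : Fin n → Fin n → EE N) (m : EE N) :
    |∑ k, ∑ l, ∑ q, (inner ℝ (a k l) (a k q) : ℝ) * inner ℝ (a q l) m|
      ≤ XX a * (‖m‖ ^ 2 + XX a) := by
  have hX0 : 0 ≤ XX a := by
    unfold XX
    positivity
  have e1 : (∑ k, ∑ l, ∑ q, (inner ℝ (a k l) (a k q) : ℝ) * inner ℝ (a q l) m)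
      = ∑ l, ∑ q, (∑ k, (inner ℝ (a k l) (a k q) : ℝ)) * inner ℝ (a q l) m := by
    rw [Finset.sum_comm]
    refine Finset.sum_congr rfl fun l _ => ?_
    rw [Finset.sum_comm]
    refine Finset.sum_congr rfl fun q _ => ?_
    rw [Finset.sum_mul]
  have e2 : (∑ l, ∑ q, (∑ k, (inner ℝ (a k l) (a k q) : ℝ)) ^ 2) ≤ XX a ^ 2 := by
    have e3 : XX a ^ 2 = ∑ l, ∑ q, (∑ k, ‖a k l‖ ^ 2) * (∑ k, ‖a k q‖ ^ 2) := by
      have e4 : XX a = ∑ l, ∑ k, ‖a k l‖ ^ 2 := by
        unfold XX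
        exact Finset.sum_comm
      rw [e4, pow_two, Finset.sum_mul_sum]
    rw [e3]
    refine Finset.sum_le_sum fun l _ => Finset.sum_le_sum fun q _ => ?_
    have e5 : |∑ k, (inner ℝ (a k l) (a k q) : ℝ)| ≤ ∑ k, ‖a k l‖ * ‖a k q‖ :=
      (Finset.abs_sum_le_sum_abs _ _).trans
        (Finset.sum_le_sum fun k _ => abs_real_inner_le_norm _ _)
    have e6 : (∑ k, (inner ℝ (a k l) (a k q) : ℝ)) ^ 2 ≤ (∑ k, ‖a k l‖ * ‖a k q‖) ^ 2 := by
      rw [← sq_abs]
      exact pow_le_pow_left₀ (abs_nonneg _) e5 2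
    exact e6.trans (Finset.sum_mul_sq_le_sq_mul_sq _ _ _)
  have e7 : (∑ l, ∑ q, (inner ℝ (a q l) m : ℝ) ^ 2) ≤ XX a * ‖m‖ ^ 2 := by
    have e4 : XX a * ‖m‖ ^ 2 = ∑ l, ∑ k, ‖a k l‖ ^ 2 * ‖m‖ ^ 2 := by
      unfold XX
      rw [Finset.sum_comm, Finset.sum_mul]
      exact Finset.sum_congr rfl fun l _ => by rw [Finset.sum_mul]
    rw [e4]
    refine Finset.sum_le_sum fun l _ => Finset.sum_le_sum fun q _ => ?_
    rw [← sq_abs, ← mul_pow]
    exact pow_le_pow_left₀ (abs_nonneg _) (abs_real_inner_le_norm _ _) 2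
  rw [e1]
  have e8 := cs2 (fun l q => ∑ k, (inner ℝ (a k l) (a k q) : ℝ))
    (fun l q => (inner ℝ (a q l) m : ℝ))
  have e9 : (∑ l, ∑ q, (∑ k, (inner ℝ (a k l) (a k q) : ℝ)) * inner ℝ (a q l) m) ^ 2
      ≤ (XX a * (‖m‖ ^ 2 + XX a)) ^ 2 := by
    refine e8.trans ?_
    refine (mul_le_mul e2 e7 (by positivity) (by positivity)).trans ?_
    have h0 : 0 ≤ ‖m‖ ^ 2 := by positivity
    have h1 : XX a * ‖m‖ ^ 2 ≤ (‖m‖ ^ 2 + XX a) ^ 2 := by nlinarith
    calc XX a ^ 2 * (XX a * ‖m‖ ^ 2) ≤ XX a ^ 2 * (‖m‖ ^ 2 + XX a) ^ 2 :=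
          mul_le_mul_of_nonneg_left h1 (by positivity)
      _ = _ := by ring
  exact abs_le_of_sq_le_sq e9 (by positivity)

/-- `AAH` in terms of the traceless part -/
lemma aah {n N : ℕ} (A : Fin n → Fin n → EE N) (m : EE N)
    (a : Fin n → Fin n → EE N) (hm : Hv A = (n : ℝ) • m)
    (ha : ∀ i j, A i j = a i j + (if i = j then (1 : ℝ) else 0) • m)
    (h1 : Hv a = 0) (h2 : SymV a) :
    AAH A = n * ((∑ k, ∑ l, ∑ q, (inner ℝ (a k l) (a k q) : ℝ) * inner ℝ (a q l) m)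
      + 2 * (∑ i, ∑ j, (inner ℝ (a i j) m : ℝ) ^ 2) + ‖m‖ ^ 2 * XX a + n * ‖m‖ ^ 4) := by
  obtain ⟨v, hv⟩ : ∃ v : Fin n → Fin n → ℝ, v = fun i j => (inner ℝ (a i j) m : ℝ) := ⟨_, rfl⟩
  have hv' : ∀ i j, (inner ℝ (a i j) m : ℝ) = v i j := fun i j => by rw [hv]
  have hvs : ∀ i j, v i j = v j i := fun i j => by rw [hv]; simp only; rw [h2 i j]
  have hvt : ∑ i, v i i = 0 := by
    rw [hv]
    simp only
    rw [← sum_inner]
    have : (∑ i, a i i) = 0 := h1
    rw [this, inner_zero_left]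
  have hin : ∀ k l q, (inner ℝ (A k l) (A k q) : ℝ) = inner ℝ (a k l) (a k q)
      + (if k = l then v k q else 0) + (if k = q then v k l else 0)
      + (if k = l then (if k = q then ‖m‖ ^ 2 else 0) else 0) := by
    intro k l q
    rw [ha k l, ha k q, inner_add_left, inner_add_right, inner_add_right, inner_smul_left,
      inner_smul_right, inner_smul_left, inner_smul_right, real_inner_comm (a k q) m, hv', hv',
      real_inner_self_eq_norm_sq]
    split_ifs <;> simp <;> ring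
  have hz : ∀ q l, zz A q l = n * (v q l + (if q = l then ‖m‖ ^ 2 else 0)) := by
    intro q l
    unfold zz
    rw [hm, inner_smul_right, ha q l, inner_add_left, inner_smul_left, hv',
      real_inner_self_eq_norm_sq]
    split_ifs <;> simp
  have hXX : ∑ k, ∑ l, (inner ℝ (a k l) (a k l) : ℝ) = XX a := by
    unfold XX
    simp only [real_inner_self_eq_norm_sq]
  have hsplit : ∀ k, (∑ l, ∑ q, (inner ℝ (A k l) (A k q) : ℝ) * zz A q l)
      = n * ((∑ l, ∑ q, (inner ℝ (a k l) (a k q) : ℝ) * v q l)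
        + ‖m‖ ^ 2 * (∑ l, (inner ℝ (a k l) (a k l) : ℝ)) + 2 * (∑ l, v k l ^ 2)
        + 3 * ‖m‖ ^ 2 * v k k + ‖m‖ ^ 4) := by
    intro k
    have s1 : ∀ l, (∑ q, (inner ℝ (A k l) (A k q) : ℝ) * zz A q l)
        = n * ((∑ q, (inner ℝ (a k l) (a k q) : ℝ) * v q l)
          + ‖m‖ ^ 2 * (inner ℝ (a k l) (a k l) : ℝ)
          + (if k = l then (∑ q, v k q * v q l) + ‖m‖ ^ 2 * v k l else 0)
          + v k l * v k l + (if k = l then ‖m‖ ^ 2 * v k l else 0)
          + (if k = l then ‖m‖ ^ 2 * v k l + ‖m‖ ^ 4 else 0)) := by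
      intro l
      have t1 : ∀ q, (inner ℝ (A k l) (A k q) : ℝ) * zz A q l
          = n * ((inner ℝ (a k l) (a k q) : ℝ) * v q l
            + (if q = l then (inner ℝ (a k l) (a k q) : ℝ) * ‖m‖ ^ 2 else 0)
            + (if k = l then v k q * v q l + (if q = l then v k q * ‖m‖ ^ 2 else 0) else 0)
            + (if q = k then v k l * v q l + (if k = l then v k l * ‖m‖ ^ 2 else 0) else 0)
            + (if q = k then (if k = l then ‖m‖ ^ 2 * v q l + ‖m‖ ^ 4 else 0) else 0)) := by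
        intro q
        rw [hin, hz]
        by_cases c1 : k = l
        · subst c1
          by_cases c2 : q = k
          · subst c2
            simp
            ring
          · have c2' : k ≠ q := fun h => c2 h.symm
            simp [c2, c2']
            ring
        · by_cases c2 : q = k
          · subst c2
            simp [c1]
            ring
          · have c2' : k ≠ q := fun h => c2 h.symm
            by_cases c3 : q = l
            · subst c3
              simp [c2, c2']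
              ring
            · simp [c1, c2', c2, c3]
              ring
      simp only [t1]
      rw [← Finset.mul_sum]
      congr 1
      simp only [Finset.sum_add_distrib, Finset.sum_ite_eq', Finset.mem_univ, if_true]
      by_cases c1 : k = l
      · subst c1
        simp only [if_true, Finset.sum_add_distrib, Finset.sum_ite_eq', Finset.mem_univ]
        ring
      · simp only [c1, if_false, Finset.sum_const_zero]
        ring_nf
        try rw [hvs k l]
    simp only [s1]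
    rw [← Finset.mul_sum]
    congr 1
    simp only [Finset.sum_add_distrib, Finset.sum_ite_eq, Finset.mem_univ, if_true,
      ← Finset.mul_sum]
    have s2 : ∑ q, v k q * v q k = ∑ l, v k l ^ 2 :=
      Finset.sum_congr rfl fun q _ => by rw [hvs q k]; ring
    have s3 : ∑ l, v k l * v k l = ∑ l, v k l ^ 2 :=
      Finset.sum_congr rfl fun q _ => by ring
    rw [s2, s3]
    ring
  unfold AAH
  simp only [hsplit, hv']
  rw [← Finset.mul_sum]
  congr 1
  simp only [Finset.sum_add_distrib, ← Finset.mul_sum, hXX, hvt]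
  simp only [Finset.sum_const, Finset.card_univ, Fintype.card_fin, nsmul_eq_mul]
  ring

theorem hZBD (hSQG : StSQG) : StZBD := by
  intro n N hn A hA C hC hth
  have hn0 : (0 : ℝ) < n := by exact_mod_cast (by omega : 0 < n)
  have hn1 : (1 : ℝ) ≤ n := by exact_mod_cast hn
  obtain ⟨m, hm⟩ : ∃ m : EE N, m = (1 / (n : ℝ)) • Hv A := ⟨_, rfl⟩
  obtain ⟨a, ha⟩ : ∃ a : Fin n → Fin n → EE N,
      a = (fun i j => A i j - (if i = j then (1 : ℝ) else 0) • m) := ⟨_, rfl⟩
  obtain ⟨v, hv⟩ : ∃ v : ℝ, v = (∑ i, ∑ j, (inner ℝ (a i j) m : ℝ) ^ 2) := ⟨_, rfl⟩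
  obtain ⟨h1, h2, h3, h4, h5, h6, h7, h8, h9, h10, h11, h12⟩ := hSQG n N hn A hA m a hm ha v hv
  have hHm : Hv A = (n : ℝ) • m := by
    rw [hm, smul_smul, mul_one_div_cancel hn0.ne', one_smul]
  have ha' : ∀ i j, A i j = a i j + (if i = j then (1 : ℝ) else 0) • m := by
    intro i j
    rw [ha]
    simp
  have hA2 := aah A m a hHm ha' h1 h2
  have hS := cub a m
  rw [h4] at hS
  rw [h4] at h7
  rw [← hv, h4] at hA2
  obtain ⟨S, hSd⟩ : ∃ S : ℝ,
      S = ∑ k, ∑ l, ∑ q, (inner ℝ (a k l) (a k q) : ℝ) * inner ℝ (a q l) m := ⟨_, rfl⟩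
  rw [← hSd] at hS hA2
  obtain ⟨κ, hκ⟩ : ∃ κ : ℝ, κ = ‖m‖ ^ 2 := ⟨_, rfl⟩
  have hκ0 : 0 ≤ κ := by rw [hκ]; positivity
  have hκ4 : ‖m‖ ^ 4 = κ ^ 2 := by rw [hκ]; ring
  rw [hκ4, ← hκ] at hA2
  rw [hκ4] at h5
  rw [← hκ] at hS h3
  obtain ⟨θ, hθ⟩ : ∃ θ : ℝ, θ = thA2 A := ⟨_, rfl⟩
  rw [← hθ] at hS hA2 h7 h8 h9 hth ⊢
  have hXX : XX A = θ + YY A / n := by
    rw [hθ]
    unfold thA2
    ring
  have hY0 : 0 ≤ YY A := by rw [h3]; positivity
  have hYn : YY A / n ≤ YY A := div_le_self hY0 hn1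
  have hXC : XX A ≤ 2 * C * YY A := by
    rw [hXX]
    nlinarith
  refine ⟨h9, ?_, ?_, hXC⟩
  · have hd : AAH A - Sq A = n * S + n * κ * θ - Sq a := by
      rw [hA2, h5]
      ring
    rw [hd]
    have b1 : |n * S + n * κ * θ - Sq a| ≤ n * |S| + n * κ * θ + |Sq a| := by
      have c1 : |n * S| = n * |S| := by rw [abs_mul, abs_of_pos hn0]
      have c2 : |n * κ * θ| = n * κ * θ := abs_of_nonneg (by positivity)
      calc |n * S + n * κ * θ - Sq a| ≤ |n * S + n * κ * θ| + |Sq a| := abs_sub _ _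
        _ ≤ |n * S| + |n * κ * θ| + |Sq a| := by
            have := abs_add_le (n * S) (n * κ * θ)
            linarith
        _ = _ := by rw [c1, c2]
    refine b1.trans ?_
    have b2 : n * |S| ≤ n * (θ * (κ + θ)) := mul_le_mul_of_nonneg_left hS hn0.le
    have b3 : n * κ ≤ YY A := by
      rw [h3]
      have : 0 ≤ (n : ℝ) * κ * (n - 1) := by
        have : 0 ≤ (n : ℝ) - 1 := by linarith
        positivity
      nlinarith
    have b4 : (n + 5) * θ ≤ 6 * n * C * YY A := by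
      calc (n + 5) * θ ≤ (6 * n) * θ := mul_le_mul_of_nonneg_right (by linarith) h9
        _ ≤ (6 * n) * (C * YY A) := mul_le_mul_of_nonneg_left hth (by positivity)
        _ = _ := by ring
    calc n * |S| + n * κ * θ + |Sq a| ≤ n * (θ * (κ + θ)) + n * κ * θ + 5 * θ ^ 2 := by
          linarith
      _ = (2 * (n * κ) + (n + 5) * θ) * θ := by ring
      _ ≤ (2 * YY A + 6 * n * C * YY A) * θ :=
          mul_le_mul_of_nonneg_right (by linarith) h9
      _ = _ := by ring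
  · refine h8.trans ?_
    calc 5 * XX A * θ ≤ 5 * (2 * C * YY A) * θ :=
          mul_le_mul_of_nonneg_right (by linarith) h9
      _ = _ := by ring

end Pool.Agent.Helper47.HG
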